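import Mathlib
import Pool.Agent.Q236.CR.Arg3

/-!
# Random systems at prime arguments, in the complete range of lengths

For all but a proportion `(log H)^{-A}` of the systems of `k` polynomials of given degrees with coefficients of size at most
`H` (for `k = 1` and degree 1: of the pairs `(a, d)`), the number of PRIMES `q ≤ K` at which all values `|P_i(q)|` are prime is
given by the formula of Bateman and Horn up to a relative error `(log H)^{-A}`, for ALL `K` between `exp((log H)^ε)` and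
`H / (log H)^B`.
-/

set_option autoImplicit false

namespace Pool.Agent.Results.MP_8bf9c2_nt.CompleteRange

open Finset Polynomial

/-- the systems of coefficients of `k` polynomials of degrees at most `d i`, all coefficients in `[-H, H]` -/
noncomputable def Box (k : ℕ) (d : Fin k → ℕ) (H : ℕ) : Finset ((i : Fin k) → Fin (d i + 1) → ℤ) :=
  Fintype.piFinset (fun i => Fintype.piFinset (fun _ : Fin (d i + 1) => Icc (-(H : ℤ)) H))

/-- the polynomial `G` plus the polynomial with coefficients `c 0, ..., c d` -/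
noncomputable def poly (d : ℕ) (G : ℤ[X]) (c : Fin (d + 1) → ℤ) : ℤ[X] := G + ∑ l, C (c l) * X ^ (l : ℕ)

open Classical in
/-- the number of residues `n` modulo `p` at which `p` divides `n` or some value of the system -/
noncomputable def omega {k : ℕ} (P : Fin k → ℤ[X]) (p : ℕ) : ℕ :=
  ((Finset.range p).filter (fun n : ℕ => p ∣ n ∨ ∃ i, (p : ℤ) ∣ (P i).eval (n : ℤ))).card

/-- the constant of Bateman and Horn for `n, P_1(n), ..., P_k(n)`, cut at `z` -/
noncomputable def const {k : ℕ} (P : Fin k → ℤ[X]) (z : ℕ) : ℝ :=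
  ∏ p ∈ (Finset.Icc 1 z).filter Nat.Prime, (1 - (omega P p : ℝ) / p) / (1 - 1 / (p : ℝ)) ^ (k + 1)

open Classical in
/-- the number of primes `q ≤ K` at which all `|P_i(q)|` are prime -/
noncomputable def count {k : ℕ} (P : Fin k → ℤ[X]) (K : ℕ) : ℕ :=
  ((Finset.Icc 1 K).filter (fun q : ℕ => q.Prime ∧ ∀ i, ((P i).eval (q : ℤ)).natAbs.Prime)).card

open Classical in
/-- the sum of the products of `1 / log |P_i(q)|` over the primes `q ≤ K` with all `|P_i(q)| ≥ 2` -/
noncomputable def model {k : ℕ} (P : Fin k → ℤ[X]) (K : ℕ) : ℝ :=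
  ∑ q ∈ (Finset.Icc 1 K).filter (fun q : ℕ => q.Prime ∧ ∀ i, 2 ≤ |(P i).eval (q : ℤ)|),
    ∏ i, 1 / Real.log |(((P i).eval (q : ℤ) : ℤ) : ℝ)|

/-- the sum of the products of the von Mangoldt function at `n` and the `|P_i(n)|`, `n ≤ K` -/
noncomputable def mangoldt {k : ℕ} (P : Fin k → ℤ[X]) (K : ℕ) : ℝ :=
  ∑ n ∈ Finset.Icc 1 K, ArithmeticFunction.vonMangoldt n *
    ∏ i, ArithmeticFunction.vonMangoldt ((P i).eval (n : ℤ)).natAbs

theorem result (k : ℕ) (d : Fin k → ℕ) (hd : ∀ i, 1 ≤ d i) (D A : ℕ) (ε : ℝ) (hε : 0 < ε) :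
    ∃ E B H0 : ℕ, ∀ H : ℕ, H0 ≤ H → ∀ G : Fin k → ℤ[X], (∀ i, (G i).natDegree ≤ D) →
    (∀ i, ∀ n : ℕ, 1 ≤ n → n ≤ H → |(G i).eval (n : ℤ)| ≤ H * (n : ℤ) ^ d i) →
    ∃ Bad ⊆ Box k d H, (Bad.card : ℝ) ≤ (Box k d H).card / Real.log H ^ A ∧
    ∀ c ∈ Box k d H, c ∉ Bad → ∀ P : Fin k → ℤ[X], P = (fun i => poly (d i) (G i) (c i)) →
    ∀ z : ℕ, z = ⌊Real.log H ^ E⌋₊ →
    ∀ K : ℕ, Real.exp (Real.log H ^ ε) ≤ K → (K : ℝ) * Real.log H ^ B ≤ H →
      |mangoldt P K - const P z * K| ≤ K / Real.log H ^ A ∧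
      |(count P K : ℝ) - const P z * model P K| ≤ K / Real.log H ^ A ∧
      ((∀ p : ℕ, p.Prime → omega P p < p) →
        |(count P K : ℝ) - const P z * model P K| ≤ const P z * model P K / Real.log H ^ A ∧
        (K : ℝ) / Real.log H ^ (k + 5) ≤ count P K) := by
  obtain ⟨s, rfl⟩ : ∃ s : Fin k → ℕ, d = fun i => s i + 1 :=
    ⟨fun i => d i - 1, funext fun i => (Nat.sub_add_cancel (hd i)).symm⟩
  obtain ⟨E, B, H0, h⟩ := Pool.Agent.Q236.CR.arg_all k s D A ε hε
  refine ⟨E, B, H0, fun H hH G hG hg => ?_⟩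
  obtain ⟨Bad, h1, h2, h3⟩ := h H hH G hG hg
  refine ⟨Bad, h1, h2, fun c hc hcb P hP z hz K hK1 hK2 => ?_⟩
  have h4 := h3 c hc hcb P hP K hK1 hK2
  rw [← hz] at h4
  have ho : ∀ p, Pool.Agent.Q236.CR.om (Pool.Agent.Q236.CR.ext P) p = omega P p := by
    intro p
    unfold Pool.Agent.Q236.CR.om omega
    simp only [Pool.Agent.Q236.CR.ext_hit]
  have hs : Pool.Agent.Q236.CR.sing (Pool.Agent.Q236.CR.ext P) z = const P z := by
    unfold Pool.Agent.Q236.CR.sing const
    simp only [ho]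
    rfl
  simp only [ho, hs] at h4
  refine ⟨?_, h4.2.1, h4.2.2⟩
  have h5 := h4.1
  rw [mul_comm (K : ℝ)] at h5
  exact h5

end Pool.Agent.Results.MP_8bf9c2_nt.CompleteRange
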