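import Pool.Agent.Q259.AS.Mag4
import Pool.Agent.Q259.AS.Dil2
import Pool.Agent.Y820.LF.SB

/-!
# Primes `q` with `a + q d` prime: `a` is any long block of digits, in any base, of a typical number

Definition used. `Pool.Agent.Q259.AS.SelfSim μ`: `μ` is a self-similar measure `μ = ∑ p i * (f i)_* μ` of
finitely many maps `f i x = ρ i * x + t i` with `0 < |ρ i| < 1` and `p i > 0`, not all with the same fixed point (that
is, `μ` is not a point mass; overlaps are allowed and the ratios are arbitrary).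
-/

set_option autoImplicit false

namespace Pool.Agent.Results.MP_8bf9c2_nt.DigitBlocks

open MeasureTheory Filter Finset Pool.Agent.Q259.AS

/-- The number of the primes `q ≤ N` for which `a + q d` is a (positive) prime. -/
noncomputable def count (a d : ℤ) (N : ℕ) : ℕ :=
  ((Icc 1 N).filter (fun q : ℕ => q.Prime ∧ (a + q * d).toNat.Prime)).card

open Classical in
/-- The partial products of the singular series: the factor of a prime `p ≤ z` is `(1 - 1 / p) / (1 - 1 / p) ^ 2` if `p`
divides `a d`, and `(1 - 2 / p) / (1 - 1 / p) ^ 2` otherwise. -/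
noncomputable def sing (a d : ℤ) (z : ℕ) : ℝ :=
  ∏ p ∈ (Icc 1 z).filter Nat.Prime, (1 - (if (p : ℤ) ∣ a * d then 1 else 2) / (p : ℝ)) / (1 - 1 / (p : ℝ)) ^ 2

/-- The partial products of the singular series converge to some `G > 0`, and the number of the primes `q ≤ N` for which
`a + q d` is prime is `G N / log ^ 2 N` up to the factor `1 ± ε`. -/
def Formula (ε : ℝ) (a d : ℤ) (N : ℕ) : Prop :=
  ∃ G : ℝ, 0 < G ∧ Tendsto (sing a d) atTop (nhds G) ∧
    |(count a d N : ℝ) - G * (N / Real.log N ^ 2)| ≤ ε * (G * (N / Real.log N ^ 2))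

/-- The integer whose digits in base `b` are the digits of `x` at the places `i + 1, ..., j`: the integer part of
`b ^ (j - i)` times the fractional part of `b ^ i x`. -/
noncomputable def block (b : ℕ) (x : ℝ) (i j : ℕ) : ℤ := ⌊(b : ℝ) ^ (j - i) * Int.fract ((b : ℝ) ^ i * x)⌋

open Classical in
lemma nu_eq (d a : ℤ) (h : IsCoprime a d) (p : ℕ) (hp : p.Prime) :
    Pool.Agent.Y820.LF.nuF (dC d) (dH a) p = if (p : ℤ) ∣ a * d then 1 else 2 := by
  have hpz := Nat.prime_iff_prime_int.1 hp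
  have hset : Pool.Agent.Y820.LF.nuF (dC d) (dH a) p =
      ((range p).filter (fun r : ℕ => (p : ℤ) ∣ (r : ℤ) ∨ (p : ℤ) ∣ d * r + a)).card := by
    unfold Pool.Agent.Y820.LF.nuF
    congr 1
    apply filter_congr
    intro r _
    rw [Fin.exists_fin_two]
    have e1 : dC d 0 * (r : ℤ) + dH a 0 = (r : ℤ) := by
      show 1 * (r : ℤ) + 0 = r
      ring
    have e2 : dC d 1 * (r : ℤ) + dH a 1 = d * r + a := rfl
    rw [e1, e2]
  rw [hset]
  have h0 : ∀ r : ℕ, r < p → ((p : ℤ) ∣ (r : ℤ) ↔ r = 0) := by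
    intro r hr
    constructor
    · intro hd
      exact Nat.eq_zero_of_dvd_of_lt (Int.natCast_dvd_natCast.1 hd) hr
    · rintro rfl
      simp
  by_cases hd : (p : ℤ) ∣ d
  · have ha : ¬ (p : ℤ) ∣ a := fun ha => hpz.not_isUnit (h.isUnit_of_dvd' ha hd)
    have heq : (range p).filter (fun r : ℕ => (p : ℤ) ∣ (r : ℤ) ∨ (p : ℤ) ∣ d * r + a) = {0} := by
      ext r
      rw [mem_filter, mem_range, mem_singleton]
      constructor
      · rintro ⟨h1, h2 | h2⟩
        · exact (h0 r h1).1 h2
        · exact absurd ((dvd_add_right (Dvd.dvd.mul_right hd _)).1 h2) ha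
      · rintro rfl
        exact ⟨hp.pos, Or.inl (by simp)⟩
    rw [heq, card_singleton, if_pos (Dvd.dvd.mul_left hd _)]
  · obtain ⟨r2, hr2, hr2'⟩ := Pool.Agent.Y820.LF.SBF.ex_rep d a p hp hd
    have heq : (range p).filter (fun r : ℕ => (p : ℤ) ∣ (r : ℤ) ∨ (p : ℤ) ∣ d * r + a) = {0, r2} := by
      ext r
      rw [mem_filter, mem_range, mem_insert, mem_singleton]
      constructor
      · rintro ⟨h1, h2 | h2⟩
        · exact Or.inl ((h0 r h1).1 h2)
        · exact Or.inr (Pool.Agent.Y820.LF.SBF.uniq_rep d a p hp hd _ _ h1 hr2 h2 hr2')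
      · rintro (rfl | rfl)
        · exact ⟨hp.pos, Or.inl (by simp)⟩
        · exact ⟨hr2, Or.inr hr2'⟩
    rw [heq]
    have hrr : 0 = r2 ↔ (p : ℤ) ∣ a := by
      constructor
      · rintro rfl
        simpa using hr2'
      · intro hpa
        have h1 : (p : ℤ) ∣ d * ((0 : ℕ) : ℤ) + a := by simpa using hpa
        exact Pool.Agent.Y820.LF.SBF.uniq_rep d a p hp hd _ _ hp.pos hr2 h1 hr2'
    by_cases hpa : (p : ℤ) ∣ a
    · rw [if_pos (Dvd.dvd.mul_right hpa _), ← hrr.2 hpa]
      simp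
    · rw [if_neg, card_pair (fun h => hpa (hrr.1 h))]
      intro hd'
      rcases hpz.dvd_or_dvd hd' with h1 | h1
      · exact hpa h1
      · exact hd h1

/-- Let `μ` be a self-similar probability measure on the line which is not a point mass (for instance a Cantor measure
or a Bernoulli convolution). Then `μ`-almost every `x` has the following property. Let `ε > 0` and `δ > 0` be
arbitrarily small and `A`, `T`, `Q` be arbitrarily large. For all large `j`, in ALL bases `2 ≤ b ≤ j ^ T` and for ALL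
multiples `m x`, `1 ≤ m ≤ j ^ T`, consider ALL the blocks formed by the digits of `m x` at the places `i + 1, ..., j`
which have at least `j ^ δ` digits. Let `a` be any integer whose distance from the integer with these digits
is at most the power `A` of the length of the block, and let `d` be any nonzero integer with `|d| ≤ Q`, `gcd(a, d) = 1`
and `2 ∣ a d`. Then the number of the primes `q ≤ N` for which `a + q d` is prime is the number predicted by Hardy and
Littlewood, up to a relative error of `ε`, for all `N` with `b ^ (j - i) / Q ≤ N ≤ Q b ^ (j - i)` for which the numbers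
`a + q d`, `1 ≤ q ≤ N`, are positive. -/
theorem result (μ : Measure ℝ) [IsProbabilityMeasure μ] (hμ : SelfSim μ) :
    ∀ᵐ x ∂μ, ∀ ε δ : ℝ, 0 < ε → 0 < δ → ∀ A T Q : ℕ, ∀ᶠ j : ℕ in atTop, ∀ b m : ℕ, 2 ≤ b → b ≤ j ^ T → 1 ≤ m →
      m ≤ j ^ T → ∀ i : ℕ, i ≤ j → (j : ℝ) ^ δ ≤ ((j - i : ℕ) : ℝ) →
      ∀ a : ℤ, |(a : ℝ) - block b (m * x) i j| ≤ ((j - i : ℕ) : ℝ) ^ A →
      ∀ d : ℤ, d ≠ 0 → |d| ≤ Q → IsCoprime a d → 2 ∣ a * d →
      ∀ N : ℕ, b ^ (j - i) ≤ Q * N → N ≤ Q * b ^ (j - i) → 0 < a + d → 0 < a + N * d → Formula ε a d N := by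
  classical
  have h1 : ∀ e d' A T Q : ℕ, ∀ᵐ x ∂μ, ∀ᶠ j : ℕ in atTop, ∀ b m : ℕ, 2 ≤ b → b ≤ j ^ T → 1 ≤ m → m ≤ j ^ T →
      ∀ i : ℕ, i ≤ j → (j : ℝ) ^ (1 / ((d' : ℝ) + 1)) ≤ ((j - i : ℕ) : ℝ) →
      ∀ n ∈ BadD Q (Q + 1) (1 / ((e : ℝ) + 1)) (b ^ (j - i)),
      ((j - i : ℕ) : ℝ) ^ A < |(n : ℝ) - dblock b (m * x) i j| := by
    intro e d' A T Q
    refine as_blocksX (8 * (Q + 1) * (Q + 1 + 1)) (fun X => ⟨?_, le_rfl⟩)
      (eng_dil Q (Q + 1) (by omega) (1 / ((e : ℝ) + 1)) (by positivity)) μ hμ (1 / ((d' : ℝ) + 1)) (by positivity) A T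
    exact Nat.le_mul_of_pos_left _ (Nat.mul_pos (Nat.mul_pos (by norm_num) (Nat.succ_pos _)) (Nat.succ_pos _))
  have h2 := ae_all_iff.2 (fun e => ae_all_iff.2 (fun d => ae_all_iff.2 (fun A => ae_all_iff.2 (fun T =>
    ae_all_iff.2 (h1 e d A T)))))
  filter_upwards [h2] with x hx ε δ hε hδ A T Q
  obtain ⟨e, he⟩ := exists_nat_one_div_lt hε
  obtain ⟨d', hd'⟩ := exists_nat_one_div_lt hδ
  filter_upwards [hx e d' A T Q, eventually_ge_atTop 1] with j hj hj1 b m hb hbT hm hmT i hi hij a hdist d hd hdQ hcop h2d N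
    hN1 hN2 hpos1 hpos2
  have hj1r : (1 : ℝ) ≤ j := by exact_mod_cast hj1
  have hij' : (j : ℝ) ^ (1 / ((d' : ℝ) + 1)) ≤ ((j - i : ℕ) : ℝ) :=
    (Real.rpow_le_rpow_of_exponent_le hj1r hd'.le).trans hij
  by_contra hcon
  have hN0 : 1 ≤ N := by
    by_contra h
    have h0 : N = 0 := by omega
    rw [h0, mul_zero] at hN1
    have : 0 < b ^ (j - i) := Nat.pow_pos (by omega)
    omega
  have hmem : a ∈ BadD Q (Q + 1) (1 / ((e : ℝ) + 1)) (b ^ (j - i)) := by
    refine ⟨d, hd, hdQ, ?_, N, hN2.trans (Nat.mul_le_mul_right _ (by omega)), hN1.trans (Nat.mul_le_mul_right _ (by omega)), ?_, ?_⟩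
    · intro p hp
      rw [nu_eq d a hcop p hp]
      have h2' := hp.two_le
      by_cases hpd : (p : ℤ) ∣ a * d
      · rw [if_pos hpd]
        omega
      · rw [if_neg hpd]
        rcases Nat.lt_or_ge 2 p with h3 | h3
        · exact h3
        · exfalso
          have : p = 2 := by omega
          subst this
          exact hpd (by exact_mod_cast h2d)
    · intro i'
      have hN0z : (1 : ℤ) ≤ N := by exact_mod_cast hN0
      fin_cases i'
      · show 1 ≤ (1 : ℤ) + 0 ∧ 1 ≤ 1 * (N : ℤ) + 0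
        constructor <;> linarith
      · show 1 ≤ d + a ∧ 1 ≤ d * (N : ℤ) + a
        constructor <;> linarith
    · rintro ⟨G, hG0, hG1, hG2⟩
      apply hcon
      have hsing : Pool.Agent.Y820.LF.singF (dC d) (dH a) = sing a d := by
        funext z
        unfold Pool.Agent.Y820.LF.singF sing
        apply Finset.prod_congr rfl
        intro p hp
        rw [nu_eq d a hcop p (Finset.mem_filter.1 hp).2]
        congr 3
        split_ifs <;> norm_num
      have hcount : cntW (dC d) (dH a) 0 N = count a d N := by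
        have e := cntF_sh (dC d) (dH a) 0 N
        rw [shC_zero] at e
        rw [← e]
        unfold Pool.Agent.Y820.LF.cntF count
        congr 1
        apply filter_congr
        intro q _
        rw [Fin.forall_fin_two]
        have e1 : dC d 0 * (q : ℤ) + dH a 0 = (q : ℤ) := by
          show 1 * (q : ℤ) + 0 = q
          ring
        have e2 : dC d 1 * (q : ℤ) + dH a 1 = a + q * d := by
          show d * (q : ℤ) + a = a + q * d
          ring
        rw [e1, e2, Int.toNat_natCast]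
      refine ⟨G, hG0, hsing ▸ hG1, ?_⟩
      rw [← hcount]
      refine hG2.trans ?_
      apply mul_le_mul_of_nonneg_right he.le
      have : 0 ≤ Real.log (N : ℝ) := Real.log_natCast_nonneg N
      positivity
  have h3 := hj b m hb hbT hm hmT i hi hij' a hmem
  have h4 : (dblock b (m * x) i j : ℝ) = block b (m * x) i j := rfl
  rw [h4] at h3
  linarith

end Pool.Agent.Results.MP_8bf9c2_nt.DigitBlocks
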