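import Pool.Agent.Q236.LG.ParL

set_option autoImplicit false

/-!
# Matrices of primes `q_i`, `a_j + d_{ij} q_i` with `q_i` in short pieces of polynomial sequences

Let `P_i = F_i + c_{i0} + c_{i1} x + … + c_{i,d-1} x^(d-1)`, `i = 1, …, m`, with ARBITRARY `F_i ∈ ℤ[x]` of bounded degree
and `m ≤ log^E X`, where the coefficients `c_{ij}` run independently through the integers of intervals of length at
least `X / log^C X`, and let `a_1, …, a_μ` run through the integers of intervals of length at least `X / log^C X`.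

If the number `d` of the random coefficients is large enough in terms of `M, K, μ, B, E, η`, then for all but a
proportion `log^(-B) X` of the families `(P_1, …, P_m)`, for all but a proportion `log^(-B) X` of the `(a_1, …, a_μ)`,
the following holds AT THE SAME TIME for all sets `J` of members of the family, all sets `S` of pairs `(i, j)` and all
coefficients `1 ≤ d_{ij} ≤ K` with `e = |J| + |S| ≤ M`, for all progressions `b + q k` and all intervals `(a, a + h]`
with `b + q (a + h) ≤ log^E X` and `h ≥ log^(e + η) X`: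

* the number of the `k` in `(a, a + h]` such that all the `q_i = P_i(b + q k)`, `i ∈ J`, and all the
  `a_j + d_{ij} P_i(b + q k)`, `(i, j) ∈ S`, are PRIME is `(1 + O*(ε)) 𝔖 h / log^e X` with the singular series `𝔖` of
  this system;
* without a fixed prime divisor there is such a `k`.
-/

namespace Pool.Agent.Results.MP_8bf9c2_nt.MatricesOfPrimes

open Finset Filter

/-- The value at `k` of `F + c_0 + c_1 x + … + c_{d-1} x^(d-1)`. -/
noncomputable def value {d : ℕ} (F : Polynomial ℤ) (c : Fin d → ℤ) (k : ℕ) : ℤ :=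
  F.eval (k : ℤ) + ∑ j, c j * (k : ℤ) ^ (j : ℕ)

/-- The arrays of coefficients `Z i j < c i j ≤ Z i j + Y i j`. -/
noncomputable def Arrays {m d : ℕ} (Z : Fin m → Fin d → ℤ) (Y : Fin m → Fin d → ℕ) : Finset (Fin m → Fin d → ℤ) :=
  Fintype.piFinset fun i => Fintype.piFinset fun j => Ioc (Z i j) (Z i j + Y i j)

/-- The tuples `z' j < a j ≤ z' j + y' j`. -/
noncomputable def Tuples {μ : ℕ} (z' : Fin μ → ℤ) (y' : Fin μ → ℕ) : Finset (Fin μ → ℤ) :=
  Fintype.piFinset fun j => Ioc (z' j) (z' j + y' j)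

open Classical in
/-- The number of the `k` with `r < k ≤ r + h` such that all the `P_i(b + q k)`, `i ∈ J`, and all the
`a_j + δ_{ij} P_i(b + q k)`, `(i, j) ∈ S`, are primes. -/
noncomputable def primePoints {m μ d : ℕ} (F : Fin m → Polynomial ℤ) (c : Fin m → Fin d → ℤ) (a : Fin μ → ℤ)
    (J : Finset (Fin m)) (S : Finset (Fin m × Fin μ)) (δ : Fin m × Fin μ → ℕ) (b q r h : ℕ) : ℕ :=
  ((Ioc r (r + h)).filter (fun k => (∀ i ∈ J, (value (F i) (c i) (b + q * k)).toNat.Prime) ∧
    ∀ x ∈ S, (a x.2 + δ x * value (F x.1) (c x.1) (b + q * k)).toNat.Prime)).card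

open Classical in
/-- The number of the residues `k` modulo `p` such that `p` divides one of these numbers. -/
noncomputable def omega {m μ d : ℕ} (F : Fin m → Polynomial ℤ) (c : Fin m → Fin d → ℤ) (a : Fin μ → ℤ)
    (J : Finset (Fin m)) (S : Finset (Fin m × Fin μ)) (δ : Fin m × Fin μ → ℕ) (b q p : ℕ) : ℕ :=
  ((range p).filter (fun k => (∃ i ∈ J, (p : ℤ) ∣ value (F i) (c i) (b + q * k)) ∨
    ∃ x ∈ S, (p : ℤ) ∣ a x.2 + δ x * value (F x.1) (c x.1) (b + q * k))).card

/-- The singular series: the product of `(1 - ω(p) / p) / (1 - 1 / p)^(|J| + |S|)` over the primes `p ≤ z`. -/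
noncomputable def singular {m μ d : ℕ} (F : Fin m → Polynomial ℤ) (c : Fin m → Fin d → ℤ) (a : Fin μ → ℤ)
    (J : Finset (Fin m)) (S : Finset (Fin m × Fin μ)) (δ : Fin m × Fin μ → ℕ) (b q z : ℕ) : ℝ :=
  ∏ p ∈ (Icc 1 z).filter Nat.Prime, ((1 - (omega F c a J S δ b q p : ℝ) / p) / (1 - 1 / (p : ℝ)) ^ (J.card + S.card))

/-- For `1 ≤ k ≤ log^E X`, all arrays and all tuples `a`, the values `P_i(k)`, `i ∈ J`, and `a_j + δ_{ij} P_i(k)`,
`(i, j) ∈ S`, are between `X / log^C X` and `X log^C X`. -/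
def Sizes (C E X : ℕ) {m μ d : ℕ} (F : Fin m → Polynomial ℤ) (Z : Fin m → Fin d → ℤ) (Y : Fin m → Fin d → ℕ)
    (z' : Fin μ → ℤ) (y' : Fin μ → ℕ) (J : Finset (Fin m)) (S : Finset (Fin m × Fin μ)) (δ : Fin m × Fin μ → ℕ) : Prop :=
  ∀ c ∈ Arrays Z Y, ∀ a ∈ Tuples z' y', ∀ k : ℕ, 1 ≤ k → (k : ℝ) ≤ Real.log X ^ E →
    (∀ i ∈ J, (X : ℝ) / Real.log X ^ C ≤ value (F i) (c i) k ∧ (value (F i) (c i) k : ℝ) ≤ X * Real.log X ^ C) ∧
    ∀ x ∈ S, (X : ℝ) / Real.log X ^ C ≤ (a x.2 + δ x * value (F x.1) (c x.1) k : ℤ) ∧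
      ((a x.2 + δ x * value (F x.1) (c x.1) k : ℤ) : ℝ) ≤ X * Real.log X ^ C

/-- The asymptotic formula and the existence of a prime point for the tuple `a` and all `J, S, δ` with
`1 ≤ |J| + |S| ≤ M` and `1 ≤ δ ≤ K` on `S`, all intervals of length at least `log^(|J| + |S| + η) X` and all
progressions below `log^E X`. -/
def Regular (M K C E : ℕ) (η ε : ℝ) (z X : ℕ) {m μ d : ℕ} (F : Fin m → Polynomial ℤ) (Z : Fin m → Fin d → ℤ)
    (Y : Fin m → Fin d → ℕ) (z' : Fin μ → ℤ) (y' : Fin μ → ℕ) (c : Fin m → Fin d → ℤ) (a : Fin μ → ℤ) : Prop :=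
  ∀ (J : Finset (Fin m)) (S : Finset (Fin m × Fin μ)) (δ : Fin m × Fin μ → ℕ), 1 ≤ J.card + S.card → J.card + S.card ≤ M →
    (∀ x ∈ S, 1 ≤ δ x ∧ δ x ≤ K) → Sizes C E X F Z Y z' y' J S δ → ∀ b q r h : ℕ, 1 ≤ q →
    ((b + q * (r + h) : ℕ) : ℝ) ≤ Real.log X ^ E → Real.log X ^ (((J.card + S.card : ℕ) : ℝ) + η) ≤ h →
    -- the number of the prime points
    |(primePoints F c a J S δ b q r h : ℝ) - singular F c a J S δ b q z * (h / Real.log X ^ (J.card + S.card))| ≤
      ε * (singular F c a J S δ b q z * (h / Real.log X ^ (J.card + S.card))) ∧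
    -- without a fixed prime divisor there is one
    ((∀ p : ℕ, p.Prime → p ≤ z → ∃ k : ℕ, (∀ i ∈ J, ¬ (p : ℤ) ∣ value (F i) (c i) (b + q * k)) ∧
        ∀ x ∈ S, ¬ (p : ℤ) ∣ a x.2 + δ x * value (F x.1) (c x.1) (b + q * k)) →
      ∃ k : ℕ, r < k ∧ k ≤ r + h ∧ (∀ i ∈ J, (value (F i) (c i) (b + q * k)).toNat.Prime) ∧
        ∀ x ∈ S, (a x.2 + δ x * value (F x.1) (c x.1) (b + q * k)).toNat.Prime)

open Pool.Agent.Q236.RP Pool.Agent.Q236.LG Pool.Agent.Q236.CG
open Pool.Agent.Q236.MR (pv)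

/-- an enumeration of a finite set -/
noncomputable def en {α : Type*} (I : Finset α) (t : Fin I.card) : α := (I.equivFin.symm t : α)

lemma en_mem {α : Type*} (I : Finset α) (t : Fin I.card) : en I t ∈ I := (I.equivFin.symm t).2

lemma en_inj {α : Type*} (I : Finset α) {t t' : Fin I.card} (h : en I t = en I t') : t = t' :=
  I.equivFin.symm.injective (Subtype.ext h)

lemma en_surj {α : Type*} (I : Finset α) {i : α} (hi : i ∈ I) : ∃ t, en I t = i :=
  ⟨I.equivFin ⟨i, hi⟩, by unfold en; rw [Equiv.symm_apply_apply]⟩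

/-- the linear part of the forms -/
noncomputable def sm {m μ : ℕ} (J : Finset (Fin m)) (S : Finset (Fin m × Fin μ)) (δ : Fin m × Fin μ → ℕ) :
    Fin (J.card + S.card) → Fin m → ℤ :=
  Fin.append (fun t => Pi.single (en J t) 1) (fun t => Pi.single (en S t).1 (δ (en S t) : ℤ))

/-- the coefficients of the parameters -/
noncomputable def gm {m μ : ℕ} (J : Finset (Fin m)) (S : Finset (Fin m × Fin μ)) : Fin (J.card + S.card) → Fin μ → ℤ :=
  Fin.append (fun _ _ => 0) (fun t => Pi.single (en S t).2 1)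

lemma sum_single {m : ℕ} (i : Fin m) (x : ℤ) (v : Fin m → ℤ) : ∑ j, (Pi.single i x : Fin m → ℤ) j * v j = x * v i := by
  rw [Finset.sum_eq_single i]
  · rw [Pi.single_eq_same]
  · intro j _ hj
    rw [Pi.single_eq_of_ne hj, zero_mul]
  · intro h
    exact absurd (mem_univ i) h

lemma fvl_left {m μ d : ℕ} (F : Fin m → Polynomial ℤ) (c : Fin m → Fin d → ℤ) (a : Fin μ → ℤ) (J : Finset (Fin m))
    (S : Finset (Fin m × Fin μ)) (δ : Fin m × Fin μ → ℕ) (k : ℕ) (t : Fin J.card) :
    fvl F c a (sm J S δ) (gm J S) (fun _ => 0) k (Fin.castAdd S.card t) = value (F (en J t)) (c (en J t)) k := by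
  unfold fvl sm gm
  rw [Fin.append_left, Fin.append_left, sum_single]
  simp only [zero_mul, sum_const_zero, add_zero, one_mul]
  rfl

lemma fvl_right {m μ d : ℕ} (F : Fin m → Polynomial ℤ) (c : Fin m → Fin d → ℤ) (a : Fin μ → ℤ) (J : Finset (Fin m))
    (S : Finset (Fin m × Fin μ)) (δ : Fin m × Fin μ → ℕ) (k : ℕ) (t : Fin S.card) :
    fvl F c a (sm J S δ) (gm J S) (fun _ => 0) k (Fin.natAdd J.card t) =
      a (en S t).2 + δ (en S t) * value (F (en S t).1) (c (en S t).1) k := by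
  unfold fvl sm gm
  rw [Fin.append_right, Fin.append_right, sum_single, sum_single]
  have : pv F c k (en S t).1 = value (F (en S t).1) (c (en S t).1) k := rfl
  rw [this]
  ring

lemma all_iff {m μ d : ℕ} (F : Fin m → Polynomial ℤ) (c : Fin m → Fin d → ℤ) (a : Fin μ → ℤ) (J : Finset (Fin m))
    (S : Finset (Fin m × Fin μ)) (δ : Fin m × Fin μ → ℕ) (k : ℕ) (Q : ℤ → Prop) :
    (∀ t, Q (fvl F c a (sm J S δ) (gm J S) (fun _ => 0) k t)) ↔ (∀ i ∈ J, Q (value (F i) (c i) k)) ∧
      ∀ x ∈ S, Q (a x.2 + δ x * value (F x.1) (c x.1) k) := by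
  constructor
  · intro h
    constructor
    · intro i hi
      obtain ⟨t, rfl⟩ := en_surj J hi
      have := h (Fin.castAdd S.card t)
      rwa [fvl_left] at this
    · intro x hx
      obtain ⟨t, rfl⟩ := en_surj S hx
      have := h (Fin.natAdd J.card t)
      rwa [fvl_right] at this
  · rintro ⟨h1, h2⟩ t
    refine Fin.addCases (fun t => ?_) (fun t => ?_) t
    · rw [fvl_left]
      exact h1 _ (en_mem J t)
    · rw [fvl_right]
      exact h2 _ (en_mem S t)

lemma co {m μ : ℕ} (J : Finset (Fin m)) (S : Finset (Fin m × Fin μ)) (δ : Fin m × Fin μ → ℕ) (hδ : ∀ x ∈ S, 1 ≤ δ x) :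
    CO (sm J S δ) (gm J S) := by
  classical
  have hδ0 : ∀ t, (δ (en S t) : ℤ) ≠ 0 := by
    intro t
    have h1 := hδ _ (en_mem S t)
    exact_mod_cast (by omega : δ (en S t) ≠ 0)
  intro t
  refine Fin.addCases (fun t => ?_) (fun t => ?_) t
  · refine ⟨Pi.single (en J t) 1, Pi.single (en J t) 1, fun j => if (en J t, j) ∈ S then -(δ (en J t, j) : ℤ) else 0, ?_, ?_, ?_⟩
    · unfold sm
      rw [Fin.append_left, sum_single, Pi.single_eq_same]
      norm_num
    · unfold sm gm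
      rw [Fin.append_left, Fin.append_left, sum_single, Pi.single_eq_same]
      simp
    · intro t' ht'
      refine Fin.addCases (fun t' ht' => ?_) (fun t' ht' => ?_) t' ht'
      · left
        unfold sm
        rw [Fin.append_left, sum_single, Pi.single_eq_of_ne, mul_zero]
        intro h
        apply ht'
        rw [en_inj J h]
      · by_cases h : (en S t').1 = en J t
        · right
          unfold sm gm
          rw [Fin.append_right, Fin.append_right, sum_single, sum_single, h, Pi.single_eq_same]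
          have h1 : (en J t, (en S t').2) = en S t' := by
            rw [← h]
          rw [h1, if_pos (en_mem S t')]
          ring
        · left
          unfold sm
          rw [Fin.append_right, sum_single, Pi.single_eq_of_ne h, mul_zero]
  · refine ⟨Pi.single (en S t).1 1, fun _ => 0, Pi.single (en S t).2 1, ?_, ?_, ?_⟩
    · unfold sm
      rw [Fin.append_right, sum_single, Pi.single_eq_same, mul_one]
      exact hδ0 t
    · unfold sm gm
      rw [Fin.append_right, Fin.append_right, sum_single, sum_single, Pi.single_eq_same]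
      norm_num
    · intro t' ht'
      refine Fin.addCases (fun t' ht' => ?_) (fun t' ht' => ?_) t' ht'
      · right
        unfold sm gm
        rw [Fin.append_left, Fin.append_left, sum_single]
        simp
      · by_cases h : (en S t').1 = (en S t).1
        · right
          unfold sm gm
          rw [Fin.append_right, Fin.append_right, sum_single, sum_single, Pi.single_eq_of_ne]
          · ring
          · intro h2
            apply ht'
            rw [en_inj S (Prod.ext h h2)]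
        · left
          unfold sm
          rw [Fin.append_right, sum_single, Pi.single_eq_of_ne h, mul_zero]

lemma points_eq {m μ d : ℕ} (F : Fin m → Polynomial ℤ) (c : Fin m → Fin d → ℤ) (a : Fin μ → ℤ) (J : Finset (Fin m))
    (S : Finset (Fin m × Fin μ)) (δ : Fin m × Fin μ → ℕ) (b q r h : ℕ) :
    cntL F c a (sm J S δ) (gm J S) (fun _ => 0) b q r h = primePoints F c a J S δ b q r h := by
  classical
  unfold cntL primePoints
  congr 1
  ext k
  simp only [mem_filter]
  apply and_congr_right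
  intro _
  exact all_iff F c a J S δ (b + q * k) (fun y => y.toNat.Prime)

lemma singular_eq {m μ d : ℕ} (F : Fin m → Polynomial ℤ) (c : Fin m → Fin d → ℤ) (a : Fin μ → ℤ) (J : Finset (Fin m))
    (S : Finset (Fin m × Fin μ)) (δ : Fin m × Fin μ → ℕ) (b q z : ℕ) :
    sgL F c a (sm J S δ) (gm J S) (fun _ => 0) b q z = singular F c a J S δ b q z := by
  classical
  unfold sgL singular
  apply Finset.prod_congr rfl
  intro p _
  congr 4
  unfold omL omega
  congr 1
  ext k
  simp only [mem_filter]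
  apply and_congr_right
  intro _
  have h1 := not_congr (all_iff F c a J S δ (b + q * k) (fun y => ¬ (p : ℤ) ∣ y))
  push Not at h1
  rw [h1]
  constructor
  · intro h
    by_cases h' : ∃ i ∈ J, (p : ℤ) ∣ value (F i) (c i) (b + q * k)
    · exact Or.inl h'
    · push Not at h'
      exact Or.inr (h h')
  · rintro (⟨i, hi, h⟩ | h) h'
    · exact absurd h (h' i hi)
    · exact h

lemma norm_sm {m μ K : ℕ} (J : Finset (Fin m)) (S : Finset (Fin m × Fin μ)) (δ : Fin m × Fin μ → ℕ)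
    (hδ : ∀ x ∈ S, δ x ≤ K) (t : Fin (J.card + S.card)) (i : Fin m) : |sm J S δ t i| ≤ ((K + 1 : ℕ) : ℤ) := by
  refine Fin.addCases (fun t => ?_) (fun t => ?_) t
  · unfold sm
    rw [Fin.append_left, Pi.single_apply]
    split_ifs
    · rw [abs_one]
      exact_mod_cast (by omega)
    · rw [abs_zero]
      positivity
  · unfold sm
    rw [Fin.append_right, Pi.single_apply]
    have h1 := hδ _ (en_mem S t)
    split_ifs
    · rw [Nat.abs_cast]
      exact_mod_cast (by omega)
    · rw [abs_zero]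
      positivity

lemma norm_gm {m μ K : ℕ} (J : Finset (Fin m)) (S : Finset (Fin m × Fin μ)) (t : Fin (J.card + S.card)) (j : Fin μ) :
    |gm J S t j| ≤ ((K + 1 : ℕ) : ℤ) := by
  refine Fin.addCases (fun t => ?_) (fun t => ?_) t
  · unfold gm
    rw [Fin.append_left, abs_zero]
    positivity
  · unfold gm
    rw [Fin.append_right, Pi.single_apply]
    split_ifs
    · rw [abs_one]
      exact_mod_cast (by omega)
    · rw [abs_zero]
      positivity

lemma supp_sm {m μ : ℕ} (J : Finset (Fin m)) (S : Finset (Fin m × Fin μ)) (δ : Fin m × Fin μ → ℕ)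
    (t : Fin (J.card + S.card)) (i : Fin m) (hi : i ∉ J ∪ S.image Prod.fst) : sm J S δ t i = 0 := by
  rw [mem_union, not_or] at hi
  refine Fin.addCases (fun t => ?_) (fun t => ?_) t
  · unfold sm
    rw [Fin.append_left, Pi.single_eq_of_ne]
    rintro rfl
    exact hi.1 (en_mem J t)
  · unfold sm
    rw [Fin.append_right, Pi.single_eq_of_ne]
    rintro rfl
    exact hi.2 (mem_image_of_mem _ (en_mem S t))

open Classical in
/-- **Matrices of primes in short pieces of almost all polynomial sequences, for almost all `(a_1, …, a_μ)`.** -/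
theorem result (M K μ B E : ℕ) (η : ℝ) (hη : 0 < η) : ∃ d₀ : ℕ, ∀ C d : ℕ, d₀ ≤ d → ∃ A₀ : ℕ, ∀ (A D : ℕ) (ε : ℝ),
    0 < ε → ∃ X₀ : ℕ, ∀ X, X₀ ≤ X → ∀ z : ℕ, Real.log X ^ A₀ ≤ z → (z : ℝ) ≤ Real.log X ^ A →
    ∀ m : ℕ, (m : ℝ) ≤ Real.log X ^ E →
    ∀ (F : Fin m → Polynomial ℤ) (Z : Fin m → Fin d → ℤ) (Y : Fin m → Fin d → ℕ) (z' : Fin μ → ℤ) (y' : Fin μ → ℕ),
    (∀ i, (F i).natDegree ≤ D) → (∀ i j, (X : ℝ) / Real.log X ^ C ≤ Y i j) → (∀ j, (X : ℝ) / Real.log X ^ C ≤ y' j) →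
    (((Arrays Z Y).filter (fun c => ((Tuples z' y').card : ℝ) / Real.log X ^ B <
      ((Tuples z' y').filter (fun a => ¬ Regular M K C E η ε z X F Z Y z' y' c a)).card)).card : ℝ) ≤
      (Arrays Z Y).card / Real.log X ^ B := by
  obtain ⟨d0, hd0⟩ := all_lin M (K + 1) μ (B + B) E η hη
  refine ⟨d0, ?_⟩
  intro C d hd
  obtain ⟨A0, hA0⟩ := hd0 C d hd
  refine ⟨A0, ?_⟩
  intro A D ε hε
  obtain ⟨X0, hX0⟩ := eventually_atTop.1 ((hA0 A D (min ε (1 / 2)) (by positivity)).and ((ev_log_ge 1).and (ev_pow_log 1)))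
  refine ⟨X0, ?_⟩
  intro X hX z hz1 hz2 m hm F Z Y z' y' hF hS hy'
  obtain ⟨h1, hL, hP⟩ := hX0 X hX
  have hL0 : 0 < Real.log (X : ℝ) := by linarith
  have hR : ((({0} : Finset ℤ).card : ℕ) : ℝ) ≤ Real.log X ^ E := by
    rw [card_singleton, Nat.cast_one]
    exact one_le_pow₀ hL
  have h2 := h1 z hz1 hz2 m hm {0} hR F Z Y z' y' hF hS hy'
  have hpair : (((Arrays Z Y ×ˢ Tuples z' y').filter (fun ω => ¬ Regular M K C E η ε z X F Z Y z' y' ω.1 ω.2)).card : ℝ) ≤
      ((Arrays Z Y ×ˢ Tuples z' y').card : ℝ) / (Real.log X ^ B * Real.log X ^ B) := by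
    rw [← pow_add]
    have hAr : Arrays Z Y = BA Z Y := rfl
    have hTu : Tuples z' y' = Box z' y' := rfl
    rw [hAr, hTu]
    refine le_trans ?_ h2
    have hsub : ((BA Z Y ×ˢ Box z' y').filter (fun ω => ¬ Regular M K C E η ε z X F Z Y z' y' ω.1 ω.2)) ⊆
        ((BA Z Y ×ˢ Box z' y').filter (fun ω =>
        ∃ (J : Finset (Fin m)) (e : ℕ) (s : Fin e → Fin m → ℤ) (g : Fin e → Fin μ → ℤ)
        (r : Fin e → ℤ), J.card ≤ M ∧ 1 ≤ e ∧ e ≤ M ∧ (∀ t i, |s t i| ≤ ((K + 1 : ℕ) : ℤ)) ∧ (∀ t j, |g t j| ≤ ((K + 1 : ℕ) : ℤ)) ∧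
        (∀ t, ∀ i, i ∉ J → s t i = 0) ∧ (∀ t, r t ∈ ({0} : Finset ℤ)) ∧ CO s g ∧
        (∀ c ∈ BA Z Y, ∀ N' ∈ Box z' y', ∀ k : ℕ, 1 ≤ k → (k : ℝ) ≤ Real.log X ^ E → ∀ t,
          (X : ℝ) / Real.log X ^ C ≤ fvl F c N' s g r k t ∧ (fvl F c N' s g r k t : ℝ) ≤ X * Real.log X ^ C) ∧
        ∃ b q a h : ℕ, 1 ≤ q ∧ ((b + q * (a + h) : ℕ) : ℝ) ≤ Real.log X ^ E ∧ Real.log X ^ ((e : ℝ) + η) ≤ h ∧
        ¬ |(cntL F ω.1 ω.2 s g r b q a h : ℝ) - sgL F ω.1 ω.2 s g r b q z * (h / Real.log X ^ e)| ≤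
          min ε (1 / 2) * (sgL F ω.1 ω.2 s g r b q z * (h / Real.log X ^ e)))) := by
      rintro ⟨c, a⟩ hω
      rw [mem_filter] at hω ⊢
      obtain ⟨hω1, hω3⟩ := hω
      simp only at hω3 ⊢
      refine ⟨hω1, ?_⟩
      by_contra hno
      push Not at hno
      apply hω3
      intro J S δ hJS1 hJS hδ hsize b q r h hq hbq hh
      have h3 := hno (J ∪ S.image Prod.fst) (J.card + S.card) (sm J S δ) (gm J S) (fun _ => 0)
        ((card_union_le _ _).trans ((Nat.add_le_add_left card_image_le _).trans hJS)) hJS1 hJS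
        (norm_sm J S δ (fun x hx => (hδ x hx).2)) (norm_gm J S) (fun t i hi => supp_sm J S δ t i hi)
        (fun _ => mem_singleton_self 0) (co J S δ (fun x hx => (hδ x hx).1)) (by
          intro c' hc' a' ha' k hk1 hk2
          refine (all_iff F c' a' J S δ k
            (fun y => (X : ℝ) / Real.log X ^ C ≤ y ∧ (y : ℝ) ≤ X * Real.log X ^ C)).2 ?_
          exact hsize c' hc' a' ha' k hk1 hk2) b q r h hq hbq hh
      have h4 := concl hL0 hε F c a (sm J S δ) (gm J S) (fun _ => 0) b q r h z hh h3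
      rw [points_eq, singular_eq] at h4
      refine ⟨h4.1, ?_⟩
      intro hadm
      obtain ⟨k, hk1, hk2, hk3⟩ := h4.2 (by
        intro p hp hpz
        obtain ⟨k, hk⟩ := hadm p hp hpz
        exact ⟨k, (all_iff F c a J S δ (b + q * k) (fun y => ¬ (p : ℤ) ∣ y)).2 hk⟩)
      exact ⟨k, hk1, hk2, (all_iff F c a J S δ (b + q * k) (fun y => y.toNat.Prime)).1 hk3⟩
    exact_mod_cast card_le_card hsub
  have h3 := fub (Arrays Z Y) (Tuples z' y') (fun c a => ¬ Regular M K C E η ε z X F Z Y z' y' c a) (Real.log X ^ B)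
    (pow_pos hL0 B) (by convert hpair)
  convert h3

end Pool.Agent.Results.MP_8bf9c2_nt.MatricesOfPrimes
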