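import Pool.Agent.Q84.MS3

set_option autoImplicit false

/-!
# The pairs `(κ (1 - D), D)` for several `κ` simultaneously and almost all `D` of any large set

Let `κ_1, …, κ_r` be nonzero integers. For `D` prime to all of them the pairs `(a, d) = (κ_l (1 - D), D)` satisfy the
hypotheses of the question; `p = a + q d` says `p - κ_l = D (q - κ_l)`, for instance (`κ = 1, -1`)
`p - 1 = D (q - 1)` and `p + 1 = D (q + 1)`. Call `D` good if for ALL `l`, every `η > 0` and arbitrarily large `x`
at least `x ^ (1 - η)` primes `q ≤ x` are such that `κ_l (1 - D) + q D` is prime. Let `m = (2 · 4 ^ r + 1) / 3`, that is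
`3, 11, 43, …`.

* For every `ε > 0` there are `B` and `n₀` such that for EVERY finite set `F` of at least `n₀` positive integers
  prime to the `κ_l` there are `m` integers `2 ≤ c_i ≤ B`, prime to the `κ_l`, such that for all but `ε |F|` of the
  `d ∈ F` one of `c_1 d, …, c_m d` is good.
* For every `ε > 0` at least the proportion `1 / m - ε` of every sufficiently large finite set `F` of integers
  prime to the `κ_l` is good, if `F` is almost invariant under the multiplication with every small integer prime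
  to the `κ_l` (for instance the set of the divisors, prime to the `κ_l`, of a highly divisible number).

Proof: the coloured Maynard-Tao theorem above one quarter (`Pool.Agent.TH899.UG.quarterD`): for one `κ`, at least
`T / (4 - c)` of any `T` classes of positive rationals contain elements all of whose quotients are good. If there were
`m + 1` classes without good quotients for all the `κ_l` simultaneously, Ramsey's theorem would give classes for which
an index `l` responsible for this depends only on the pair of classes, and one applies the theorem for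
`l = r, r - 1, …, 1` one after the other: at least `1 + m_(r-1), …, 2` classes are left. The translates come from
templates of classes without good quotients of maximal number.
-/

namespace Pool.Agent.Results.MP_8bf9c2_nt.SeveralFixedPoints

open Filter

/-- the pair `(a, d)` has the property of the question, with many primes: for every `η > 0` and arbitrarily large
`x` at least `x ^ (1 - η)` primes `q ≤ x` are such that `a + q d` is prime -/
def Many (a d : ℤ) : Prop := ∀ η : ℝ, 0 < η → ∃ᶠ x : ℝ in atTop,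
  x ^ (1 - η) ≤ ({q : ℕ | (q : ℝ) ≤ x ∧ q.Prime ∧ ∃ p : ℕ, p.Prime ∧ a + q * d = p}.ncard : ℝ)

/-- the number of multipliers: `3, 11, 43, …` -/
def m (r : ℕ) : ℕ := (2 * 4 ^ r + 1) / 3

/-- **Several fixed points simultaneously.** -/
theorem result (r : ℕ) (hr : 0 < r) (κ : Fin r → ℤ) (hκ : ∀ l, κ l ≠ 0) :
    (∀ D : ℕ, 0 < D → (∀ l, IsCoprime (D : ℤ) (κ l)) → ∀ l,
      Int.gcd (κ l * (1 - D)) D = 1 ∧ 2 ∣ κ l * (1 - D) * D) ∧
    (∀ ε : ℝ, 0 < ε → ∃ B n₀ : ℕ, ∀ F : Finset ℕ,
      (∀ d ∈ F, 0 < d ∧ ∀ l, IsCoprime (d : ℤ) (κ l)) → n₀ ≤ F.card →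
      ∃ c : Fin (m r) → ℕ, (∀ i, 2 ≤ c i ∧ c i ≤ B ∧ ∀ l, IsCoprime (c i : ℤ) (κ l)) ∧
        ∃ Z ⊆ F, (Z.card : ℝ) ≤ ε * F.card ∧ ∀ d ∈ F, d ∉ Z → ∃ i, ∀ l,
          Many (κ l * (1 - (c i * d : ℕ))) (c i * d : ℕ)) ∧
    ∀ ε : ℝ, 0 < ε → ∃ B : ℕ, ∀ F : Finset ℕ,
      (∀ d ∈ F, 0 < d ∧ ∀ l, IsCoprime (d : ℤ) (κ l)) → B ≤ F.card →
      (∀ k : ℕ, 1 ≤ k → k ≤ B → (∀ l, IsCoprime (k : ℤ) (κ l)) →
        B * ({n : ℕ | n ∈ F ∧ k * n ∉ F}.ncard) ≤ F.card) →
      (1 / (m r : ℝ) - ε) * F.card ≤ ({D : ℕ | D ∈ F ∧ ∀ l, Many (κ l * (1 - D)) D}.ncard : ℝ) := by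
  refine ⟨fun D _ hc l => ⟨?_, ?_⟩, fun ε hε => ?_, fun ε hε => Pool.Agent.Q84.MS.dens r hr κ hκ ε hε⟩
  · rw [← Int.isCoprime_iff_gcd_eq_one]
    refine IsCoprime.mul_left (hc l).symm ?_
    exact ⟨1, 1, by ring⟩
  · have h1 : Even ((1 - (D : ℤ)) * D) := by
      rcases Int.even_or_odd (D : ℤ) with h | h
      · exact h.mul_left _
      · exact (Odd.sub_odd odd_one h).mul_right _
    rw [mul_assoc]
    exact h1.two_dvd.mul_left _
  · obtain ⟨t, ht1, htm, h⟩ := Pool.Agent.Q84.MS.cover r hr κ hκ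
    obtain ⟨B, n₀, hB⟩ := h ε hε
    refine ⟨B, n₀, fun F hF hFc => ?_⟩
    obtain ⟨c, hc, Z, hZF, hZ, hcov⟩ := hB F hF hFc
    refine ⟨fun i => if hi : (i : ℕ) < t then c ⟨i, hi⟩ else c ⟨0, ht1⟩, fun i => ?_, Z, hZF, hZ,
      fun d hd hdZ => ?_⟩
    · by_cases hi : (i : ℕ) < t
      · simp only [hi, dif_pos]
        exact hc _
      · simp only [hi, dif_neg, not_false_eq_true]
        exact hc _
    · obtain ⟨i, hi⟩ := hcov d hd hdZ
      refine ⟨⟨i, lt_of_lt_of_le i.2 htm⟩, ?_⟩
      have h1 : ((⟨i, lt_of_lt_of_le i.2 htm⟩ : Fin (m r)) : ℕ) < t := i.2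
      simp only [h1, dif_pos]
      exact hi

end Pool.Agent.Results.MP_8bf9c2_nt.SeveralFixedPoints
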